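import Mathlib

/-!
# The cardinal functions `dd`, `dδ` and `dπ` of MP_eb94e6_gt

All definitions are for topological spaces in an arbitrary universe.
-/

set_option autoImplicit false

namespace Pool.Agent.Lib.H87I

universe u

/-- `dd Y` is the smallest cardinal `κ` for which some dense subset of `Y` is a union of `κ` discrete
subsets of `Y`. (A subset is discrete if its subspace topology is discrete.) -/
noncomputable def dd (Y : Type u) [TopologicalSpace Y] : Cardinal.{u} :=
  sInf {κ : Cardinal.{u} | ∃ (ι : Type u) (A : ι → Set Y), Cardinal.mk ι = κ ∧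
    (∀ i, DiscreteTopology ↥(A i)) ∧ Dense (⋃ i, A i)}

/-- `dDelta X`, that is `dδ(X)`, is the supremum of the cardinals `dd D` over all dense subsets `D` of
`X`, where `D` carries the subspace topology. -/
noncomputable def dDelta (X : Type u) [TopologicalSpace X] : Cardinal.{u} :=
  ⨆ D : {D : Set X // Dense D}, dd ↥(D.1)

/-- A `π`-base of `X` is a family of nonempty open sets such that every nonempty open set contains
some member of the family. -/
def IsPiBase {X : Type u} [TopologicalSpace X] (B : Set (Set X)) : Prop :=
  (∀ U ∈ B, IsOpen U ∧ U.Nonempty) ∧ ∀ V : Set X, IsOpen V → V.Nonempty → ∃ U ∈ B, U ⊆ V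

/-- A collection of sets is disjoint if its members are pairwise disjoint. -/
def IsDisjointCollection {X : Type u} (C : Set (Set X)) : Prop :=
  ∀ U ∈ C, ∀ V ∈ C, U ≠ V → Disjoint U V

/-- `dPi X`, that is `dπ(X)`, is the smallest cardinal `κ` such that `X` has a `π`-base that is a union
of `κ` disjoint collections. -/
noncomputable def dPi (X : Type u) [TopologicalSpace X] : Cardinal.{u} :=
  sInf {κ : Cardinal.{u} | ∃ (ι : Type u) (C : ι → Set (Set X)), Cardinal.mk ι = κ ∧
    (∀ i, IsDisjointCollection (C i)) ∧ IsPiBase (⋃ i, C i)}

end Pool.Agent.Lib.H87I
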