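import Mathlib

/-!
# Universe polymorphic version of `Pool.Agent.H87.DDelta.Tower`
-/

set_option autoImplicit false

namespace Pool.Agent.Lib.H87I

universe u v

open Set Function

/-- A rapidly increasing family of types along a well order. -/
theorem exists_tower (L : Type u) [LinearOrder L] [WellFoundedLT L] :
    ∃ M : L → Type u, ∀ t : L,
      ∀ f : M t → (((Σ s : {s : L // s < t}, M s.1) → Bool) → L → Bool), ¬ Injective f := by
  classical
  let F : (t : L) → ((s : L) → s < t → Type u) → Type u := fun t M =>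
    Set (((Σ s : {s : L // s < t}, M s.1 s.2) → Bool) → L → Bool)
  let M : L → Type u := (wellFounded_lt (α := L)).fix F
  refine ⟨M, fun t f hf => ?_⟩
  have h : M t = F t (fun s _ => M s) := WellFounded.fix_eq _ _ _
  let e : M t ≃ F t (fun s _ => M s) := Equiv.cast h
  exact Function.cantor_injective (f ∘ e.symm) (hf.comp e.symm.injective)

/-- Free choice of pairs of coordinates. -/
theorem key {L : Type u} [LinearOrder L] [WellFoundedLT L] {M : L → Type u}
    (hM : ∀ t, ∀ f : M t → (((Σ s : {s : L // s < t}, M s.1) → Bool) → L → Bool), ¬ Injective f)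
    {X : Type v} (b : (Σ t, M t) → X → Bool) (P : L → Set X)
    (hP : ∀ t, ∀ a a' : M t, a ≠ a' → ∃ x ∈ P t, b ⟨t, a⟩ x = true ∧ b ⟨t, a'⟩ x = false) :
    ∃ (x : L → X) (a a' : ∀ t, M t), (∀ t, x t ∈ P t) ∧ (∀ t, b ⟨t, a t⟩ (x t) = true) ∧
      (∀ t, b ⟨t, a' t⟩ (x t) = false) ∧
      ∀ s t, s ≠ t → b ⟨t, a t⟩ (x s) = b ⟨t, a' t⟩ (x s) := by
  classical
  choose e he1 he2 he3 using hP
  let Pr : L → Type u := fun t => {p : M t × M t // p.1 ≠ p.2}
  let E : ∀ t, Pr t → X := fun t p => e t p.1.1 p.1.2 p.2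
  let color : ∀ t, Pr t → ((Σ s : {s : L // s < t}, M s.1) → Bool) := fun t p q =>
    b ⟨q.1.1, q.2⟩ (E t p)
  have star : ∀ t, ∃ G : (Σ s : {s : L // s < t}, M s.1) → Bool, ∀ h : M t → L → Bool,
      ∃ p : Pr t, h p.1.1 = h p.1.2 ∧ color t p = G := by
    intro t
    by_contra hcon
    push Not at hcon
    choose H hH using hcon
    apply hM t (fun m G => H G m)
    intro m m' hmm
    by_contra hne
    let p : Pr t := ⟨(m, m'), hne⟩
    exact hH (color t p) p (congrFun hmm (color t p)) rfl
  choose G hG using star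
  -- the functions to be avoided
  let hfun : ∀ t, (∀ s, s < t → Pr s) → M t → L → Bool := fun t q m s =>
    if hs : s < t then b ⟨t, m⟩ (E s (q s hs))
    else if ht : t < s then G s ⟨⟨t, ht⟩, m⟩ else false
  let step : ∀ t, (∀ s, s < t → Pr s) → Pr t := fun t q => Classical.choose (hG t (hfun t q))
  let p : ∀ t, Pr t := (wellFounded_lt (α := L)).fix step
  have hp : ∀ t, p t = step t (fun s _ => p s) := fun t => WellFounded.fix_eq _ _ _
  have hspec : ∀ t, hfun t (fun s _ => p s) (p t).1.1 = hfun t (fun s _ => p s) (p t).1.2 ∧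
      color t (p t) = G t := by
    intro t
    have h := Classical.choose_spec (hG t (hfun t (fun s _ => p s)))
    have h2 : Classical.choose (hG t (hfun t (fun s _ => p s))) = p t := (hp t).symm
    rw [h2] at h
    exact h
  refine ⟨fun t => E t (p t), fun t => (p t).1.1, fun t => (p t).1.2, fun t => he1 _ _ _ _,
    fun t => he2 _ _ _ _, fun t => he3 _ _ _ _, ?_⟩
  intro s t hst
  rcases lt_or_gt_of_ne hst with h | h
  · have h1 := congrFun (hspec t).1 s
    simp only [hfun, h, dif_pos] at h1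
    exact h1
  · have h1 := congrFun (hspec t).1 s
    have hn : ¬ s < t := not_lt.2 h.le
    simp only [hfun, hn, h, dif_pos] at h1
    rw [dif_neg not_false, dif_neg not_false] at h1
    have h2 : ∀ m : M t, b ⟨t, m⟩ (E s (p s)) = G s ⟨⟨t, h⟩, m⟩ := by
      intro m
      have := congrFun (hspec s).2 ⟨⟨t, h⟩, m⟩
      exact this
    rw [h2, h2]
    exact h1

/-- For every type `L` of requirements there is a type `K` of coordinates such that dense choices
can be made discrete. -/
theorem exists_block (L : Type u) : ∃ K : Type u, ∀ (X : Type v) (b : K → X → Bool) (P : L → Set X),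
    (∀ t, ∀ k k' : K, k ≠ k' → ∃ x ∈ P t, b k x = true ∧ b k' x = false) →
    ∃ (x : L → X) (a a' : L → K), (∀ t, x t ∈ P t) ∧ (∀ t, b (a t) (x t) = true) ∧
      (∀ t, b (a' t) (x t) = false) ∧ ∀ s t, s ≠ t → b (a t) (x s) = b (a' t) (x s) := by
  classical
  let lo : LinearOrder L := linearOrderOfSTO WellOrderingRel
  have wf : WellFoundedLT L := ⟨(WellOrderingRel.isWellOrder (α := L)).wf⟩
  obtain ⟨M, hM⟩ := exists_tower L
  refine ⟨Σ t, M t, fun X b P hP => ?_⟩
  obtain ⟨x, a, a', h1, h2, h3, h4⟩ := key hM b P (fun t m m' hne => hP t ⟨t, m⟩ ⟨t, m'⟩ (by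
    intro h
    apply hne
    simpa using h))
  exact ⟨x, fun t => ⟨t, a t⟩, fun t => ⟨t, a' t⟩, h1, h2, h3, h4⟩

end Pool.Agent.Lib.H87I
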