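import Mathlib
import Pool.Agent.Lib.H87I.Tower

/-!
# Universe polymorphic version of `Pool.Agent.H87.DDelta.Space`

The set of coordinates contains an arbitrary given type `T`.
-/

set_option autoImplicit false

namespace Pool.Agent.Lib.H87I

universe u

open Set Function

/-- the type of new coordinates for the type `L` of requirements -/
noncomputable def K (L : Type u) : Type u := Classical.choose (exists_block.{u, u} L)

theorem K_spec (L : Type u) : ∀ (X : Type u) (b : K L → X → Bool) (P : L → Set X),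
    (∀ t, ∀ k k' : K L, k ≠ k' → ∃ x ∈ P t, b k x = true ∧ b k' x = false) →
    ∃ (x : L → X) (a a' : L → K L), (∀ t, x t ∈ P t) ∧ (∀ t, b (a t) (x t) = true) ∧
      (∀ t, b (a' t) (x t) = false) ∧ ∀ s t, s ≠ t → b (a t) (x s) = b (a' t) (x s) :=
  Classical.choose_spec (exists_block.{u, u} L)

variable (T : Type u)

/-- the coordinates used up to stage `n` -/
noncomputable def J : ℕ → Type u
  | 0 => T
  | n + 1 => J n ⊕ K (Finset (J n) × (J n → Bool))

/-- the new coordinates at stage `n + 1` -/
abbrev KK (n : ℕ) : Type u := K (Finset (J T n) × (J T n → Bool))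

/-- all coordinates -/
abbrev I : Type u := T ⊕ (Σ n, KK T n)

/-- inclusion of the coordinates of stage `n` -/
noncomputable def emb : ∀ n, J T n → I T
  | 0 => fun j => Sum.inl j
  | n + 1 => Sum.elim (emb n) (fun k => Sum.inr ⟨n, k⟩)

variable {T}

theorem emb_ne {n m : ℕ} (hnm : n ≤ m) (j : J T n) (k : KK T m) :
    emb T n j ≠ Sum.inr ⟨m, k⟩ := by
  induction n generalizing m with
  | zero =>
    intro h
    exact absurd h (by simp [emb])
  | succ n ih =>
    rcases j with j | k'
    · exact ih (by omega) j k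
    · intro h
      have h1 : (Sum.inr ⟨n, k'⟩ : I T) = Sum.inr ⟨m, k⟩ := h
      have h2 := Sum.inr_injective h1
      have h3 : n = m := congrArg Sigma.fst h2
      omega

theorem emb_injective (n : ℕ) : Injective (emb T n) := by
  induction n with
  | zero => exact Sum.inl_injective
  | succ n ih =>
    intro x y hxy
    rcases x with x | x <;> rcases y with y | y
    · exact congrArg Sum.inl (ih hxy)
    · exact absurd hxy (emb_ne le_rfl x y)
    · exact absurd hxy.symm (emb_ne le_rfl y x)
    · have h1 : (Sum.inr ⟨n, x⟩ : I T) = Sum.inr ⟨n, y⟩ := hxy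
      have h2 := Sum.inr_injective h1
      have h3 : x = y := by simpa using h2
      rw [h3]

theorem emb_mono {n m : ℕ} (hnm : n ≤ m) (i : I T) (hi : i ∈ range (emb T n)) :
    i ∈ range (emb T m) := by
  induction m, hnm using Nat.le_induction with
  | base => exact hi
  | succ m _ ih =>
    obtain ⟨j, hj⟩ := ih
    exact ⟨Sum.inl j, hj⟩

theorem exists_stage (F : Finset (I T)) : ∃ n, ∀ i ∈ F, i ∈ range (emb T n) := by
  classical
  induction F using Finset.induction_on with
  | empty => exact ⟨0, by simp⟩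
  | insert i F _ ih =>
    obtain ⟨n, hn⟩ := ih
    have h1 : ∃ m, i ∈ range (emb T m) := by
      rcases i with i | ⟨m, k⟩
      · exact ⟨0, i, rfl⟩
      · exact ⟨m + 1, Sum.inr k, rfl⟩
    obtain ⟨m, hm⟩ := h1
    refine ⟨max n m, fun i' hi' => ?_⟩
    rcases Finset.mem_insert.1 hi' with h | h
    · rw [h]; exact emb_mono (le_max_right _ _) _ hm
    · exact emb_mono (le_max_left _ _) _ (hn i' h)

theorem isOpen_coord {ι : Type u} (i : ι) (c : Bool) : IsOpen {x : ι → Bool | x i = c} := by
  have h : Continuous (fun x : ι → Bool => x i) := continuous_apply i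
  exact h.isOpen_preimage _ (isOpen_discrete ({c} : Set Bool))

/-- the basic clopen set of a requirement -/
def cyl (n : ℕ) (t : Finset (J T n) × (J T n → Bool)) : Set (I T → Bool) :=
  {x | ∀ j ∈ t.1, x (emb T n j) = t.2 j}

theorem exists_cyl_subset {U : Set (I T → Bool)} (hU : IsOpen U) (hne : U.Nonempty) :
    ∃ n t, cyl n t ⊆ U := by
  classical
  obtain ⟨x, hx⟩ := hne
  rw [isOpen_pi_iff] at hU
  obtain ⟨F, u, hu, hF⟩ := hU x hx
  obtain ⟨n, hn⟩ := exists_stage F
  refine ⟨n, (F.preimage (emb T n) (emb_injective n).injOn, fun j => x (emb T n j)), ?_⟩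
  intro y hy
  apply hF
  intro i hi
  obtain ⟨j, rfl⟩ := hn i hi
  have h1 : y (emb T n j) = x (emb T n j) := hy j (by simpa using hi)
  rw [h1]
  exact (hu _ hi).2

theorem exists_point {D : Set (I T → Bool)} (hD : Dense D) (n : ℕ)
    (t : Finset (J T n) × (J T n → Bool)) (k k' : KK T n) (hk : k ≠ k') :
    ∃ x ∈ D ∩ cyl n t, x (Sum.inr ⟨n, k⟩) = true ∧ x (Sum.inr ⟨n, k'⟩) = false := by
  classical
  let U : Set (I T → Bool) :=
    cyl n t ∩ {x | x (Sum.inr ⟨n, k⟩) = true} ∩ {x | x (Sum.inr ⟨n, k'⟩) = false}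
  have hopen : IsOpen U := by
    refine (IsOpen.inter ?_ ?_).inter ?_
    · have : cyl n t = ⋂ j ∈ t.1, {x : I T → Bool | x (emb T n j) = t.2 j} := by
        ext x; simp [cyl]
      rw [this]
      apply isOpen_biInter_finset
      intro j _
      exact isOpen_coord _ _
    · exact isOpen_coord _ _
    · exact isOpen_coord _ _
  have hne : U.Nonempty := by
    refine ⟨fun i => if h : ∃ j, emb T n j = i then t.2 h.choose else
      if i = Sum.inr ⟨n, k⟩ then true else false, ⟨?_, ?_⟩, ?_⟩
    · intro j _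
      have h : ∃ j', emb T n j' = emb T n j := ⟨j, rfl⟩
      have h2 : h.choose = j := emb_injective n h.choose_spec
      simp only [dif_pos h]
      rw [h2]
    · have h : ¬ ∃ j, emb T n j = Sum.inr ⟨n, k⟩ := by
        rintro ⟨j, hj⟩
        exact emb_ne le_rfl j k hj
      simp [h]
    · have h : ¬ ∃ j, emb T n j = Sum.inr ⟨n, k'⟩ := by
        rintro ⟨j, hj⟩
        exact emb_ne le_rfl j k' hj
      have h2 : ¬ (Sum.inr ⟨n, k'⟩ : I T) = Sum.inr ⟨n, k⟩ := by
        intro h3
        have h4 := Sum.inr_injective h3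
        apply hk
        simpa using h4.symm
      simp only [mem_ofPred_eq, dif_neg h, if_neg h2]
  obtain ⟨x, hx1, hx2⟩ := hD.inter_open_nonempty U hopen hne
  exact ⟨x, ⟨hx2, hx1.1.1⟩, hx1.1.2, hx1.2⟩

/-- Every dense subset of the cube contains a dense countable union of discrete sets. -/
theorem exists_discrete {D : Set (I T → Bool)} (hD : Dense D) :
    ∃ A : ℕ → Set (I T → Bool), (∀ n, A n ⊆ D ∧ DiscreteTopology ↥(A n)) ∧
      Dense (⋃ n, A n) := by
  classical
  have h := fun n => K_spec (Finset (J T n) × (J T n → Bool)) (I T → Bool)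
    (fun k x => x (Sum.inr ⟨n, k⟩))
    (fun t => D ∩ cyl n t) (fun t k k' hk => exists_point hD n t k k' hk)
  choose x a a' h1 h2 h3 h4 using h
  refine ⟨fun n => range (x n), fun n => ⟨?_, ?_⟩, ?_⟩
  · rintro _ ⟨t, rfl⟩
    exact (h1 n t).1
  · rw [discreteTopology_subtype_iff']
    rintro _ ⟨t, rfl⟩
    refine ⟨{y | y (Sum.inr ⟨n, a n t⟩) = true} ∩ {y | y (Sum.inr ⟨n, a' n t⟩) = false},
      (isOpen_coord _ _).inter (isOpen_coord _ _), ?_⟩
    · ext y
      constructor
      · rintro ⟨⟨hy1, hy2⟩, s, rfl⟩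
        by_contra hne
        have hst : s ≠ t := fun h => hne (by rw [h]; exact mem_singleton _)
        have h5 := h4 n s t hst
        have hy1' : x n s (Sum.inr ⟨n, a n t⟩) = true := hy1
        have hy2' : x n s (Sum.inr ⟨n, a' n t⟩) = false := hy2
        rw [hy1', hy2'] at h5
        exact absurd h5 (by simp)
      · rintro rfl
        exact ⟨⟨h2 n t, h3 n t⟩, t, rfl⟩
  · rw [dense_iff_inter_open]
    intro U hU hne
    obtain ⟨n, t, ht⟩ := exists_cyl_subset hU hne
    exact ⟨x n t, ht (h1 n t).2, mem_iUnion.2 ⟨n, t, rfl⟩⟩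

end Pool.Agent.Lib.H87I
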