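import Mathlib
import Pool.Agent.Lib.H87I.Defs
import Pool.Agent.Lib.H87I.Space

/-!
# The values of `dδ` and `dπ` for Cantor cubes
-/

set_option autoImplicit false

namespace Pool.Agent.Lib.H87I

universe u

open Set Function MeasureTheory Cardinal

/-- a fair coin -/
noncomputable def coin : Measure Bool := (PMF.uniformOfFintype Bool).toMeasure

instance : IsProbabilityMeasure coin := by
  unfold coin
  infer_instance

theorem coin_pos (c : Bool) : 0 < coin {c} := by
  unfold coin
  rw [PMF.toMeasure_apply_singleton _ _ (MeasurableSet.singleton c)]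
  simp

/-- the product measure on a Cantor cube -/
noncomputable def mu (ι : Type u) : Measure (ι → Bool) := Measure.infinitePi (fun _ => coin)

instance (ι : Type u) : IsProbabilityMeasure (mu ι) := by
  unfold mu
  infer_instance

/-- a cylinder -/
def box {ι : Type u} (F : Finset ι) (x : ι → Bool) : Set (ι → Bool) :=
  (F : Set ι).pi (fun i => {x i})

theorem box_measurable {ι : Type u} (F : Finset ι) (x : ι → Bool) : MeasurableSet (box F x) :=
  MeasurableSet.pi F.countable_toSet (fun i _ => MeasurableSet.singleton (x i))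

theorem mu_box_pos {ι : Type u} (F : Finset ι) (x : ι → Bool) : 0 < mu ι (box F x) := by
  unfold mu box
  rw [Measure.infinitePi_pi _ (fun i _ => MeasurableSet.singleton (x i))]
  exact CanonicallyOrderedAdd.prod_pos.2 (fun i _ => coin_pos (x i))

theorem exists_box_subset {ι : Type u} {U : Set (ι → Bool)} (hU : IsOpen U) (hne : U.Nonempty) :
    ∃ F x, box F x ⊆ U := by
  obtain ⟨x, hx⟩ := hne
  rw [isOpen_pi_iff] at hU
  obtain ⟨F, u, hu, hF⟩ := hU x hx
  refine ⟨F, x, fun y hy => hF fun i hi => ?_⟩
  have h1 : y i = x i := hy i hi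
  rw [h1]
  exact (hu i hi).2

/-- The Cantor cube has the countable chain condition. -/
theorem countable_of_disjoint {ι : Type u} (C : Set (Set (ι → Bool)))
    (hC : IsDisjointCollection C) (hCo : ∀ U ∈ C, IsOpen U ∧ U.Nonempty) : C.Countable := by
  have h : ∀ U : C, ∃ F x, box F x ⊆ U.1 :=
    fun U => exists_box_subset (hCo U.1 U.2).1 (hCo U.1 U.2).2
  choose F x hFx using h
  have h1 := Measure.countable_meas_pos_of_disjoint_iUnion (μ := mu ι)
    (As := fun U : C => box (F U) (x U)) (fun U => box_measurable _ _) (by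
      intro U V hUV
      have h2 : Disjoint U.1 V.1 := hC U.1 U.2 V.1 V.2 (fun h => hUV (Subtype.ext h))
      exact h2.mono (hFx U) (hFx V))
  have h2 : {U : C | 0 < mu ι (box (F U) (x U))} = Set.univ := by
    ext U
    simp [mu_box_pos]
  rw [h2] at h1
  exact Set.countable_coe_iff.1 (Set.countable_univ_iff.1 h1)

/-- In a Cantor cube with uncountably many coordinates a `π`-base is not a union of fewer disjoint
families than there are coordinates. -/
theorem le_of_piBase {ι κ : Type u} (hι : ℵ₀ < #ι)
    (C : κ → Set (Set (ι → Bool))) (hC : ∀ i, IsDisjointCollection (C i))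
    (hb : IsPiBase (⋃ i, C i)) : #ι ≤ #κ := by
  classical
  by_contra hlt
  rw [not_le] at hlt
  let B : Set (Set (ι → Bool)) := ⋃ i, C i
  have hm : max #κ ℵ₀ < #ι := max_lt hlt hι
  have hmul : #κ * ℵ₀ ≤ max #κ ℵ₀ := by
    refine (mul_le_max _ _).trans ?_
    exact max_le le_rfl (le_max_right _ _)
  have hB : #B ≤ max #κ ℵ₀ := by
    refine (mk_iUnion_le_sum_mk).trans ?_
    refine (sum_le_sum _ (fun _ => ℵ₀) fun i => ?_).trans ?_
    · exact le_aleph0_iff_set_countable.2 (countable_of_disjoint _ (hC i)
        fun U hU => hb.1 U (mem_iUnion.2 ⟨i, hU⟩))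
    · rw [sum_const']
      exact hmul
  have hBo : ∀ U : B, ∃ F x, box F x ⊆ U.1 :=
    fun U => exists_box_subset (hb.1 U.1 U.2).1 (hb.1 U.1 U.2).2
  choose F x hFx using hBo
  have hcount : #(⋃ U : B, (F U : Set ι)) ≤ max #κ ℵ₀ := by
    refine (mk_iUnion_le_sum_mk).trans ?_
    refine (sum_le_sum _ (fun _ => ℵ₀) fun U => ?_).trans ?_
    · exact le_aleph0_iff_set_countable.2 (F U).countable_toSet
    · rw [sum_const']
      refine (mul_le_max _ _).trans ?_
      exact max_le (max_le hB (le_max_right _ _)) (le_max_right _ _)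
  obtain ⟨i, hi⟩ : ∃ i, i ∉ ⋃ U : B, (F U : Set ι) := by
    by_contra hcon
    push Not at hcon
    have h1 : (⋃ U : B, (F U : Set ι)) = Set.univ := eq_univ_of_forall hcon
    rw [h1, mk_univ] at hcount
    exact absurd (hcount.trans_lt hm) (lt_irrefl _)
  have hV : IsOpen {y : ι → Bool | y i = true} := isOpen_coord i true
  obtain ⟨U, hU, hUV⟩ := hb.2 _ hV ⟨fun _ => true, rfl⟩
  let U' : B := ⟨U, hU⟩
  have h1 : Function.update (x U') i false ∈ box (F U') (x U') := by
    intro j hj
    have hji : j ≠ i := by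
      rintro rfl
      exact hi (mem_iUnion.2 ⟨U', hj⟩)
    simp [hji]
  have h2 := hUV (hFx U' h1)
  simp at h2

/-- `dπ` of a Cantor cube with uncountably many coordinates. -/
theorem dPi_cube {ι : Type u} (hι : ℵ₀ < #ι) : dPi (ι → Bool) = #ι := by
  classical
  have hinf : Infinite ι := infinite_iff.2 hι.le
  have hmem : #ι ∈ {κ : Cardinal.{u} | ∃ (ι' : Type u) (C : ι' → Set (Set (ι → Bool))),
      #ι' = κ ∧ (∀ i, IsDisjointCollection (C i)) ∧ IsPiBase (⋃ i, C i)} := by
    refine ⟨Finset ι × Finset ι, fun p => {box p.1 (fun i => decide (i ∈ p.2))}, ?_, ?_, ?_, ?_⟩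
    · rw [mk_prod, lift_id, mk_finset_of_infinite, mul_eq_self hι.le]
    · intro p U hU V hV hne
      rw [mem_singleton_iff] at hU hV
      exact absurd (hU.trans hV.symm) hne
    · intro U hU
      obtain ⟨p, hp⟩ := mem_iUnion.1 hU
      rw [mem_singleton_iff] at hp
      rw [hp]
      refine ⟨?_, fun i => decide (i ∈ p.2), fun i _ => rfl⟩
      exact isOpen_set_pi p.1.finite_toSet fun i _ => isOpen_discrete _
    · intro V hV hne
      obtain ⟨F, x, hF⟩ := exists_box_subset hV hne
      refine ⟨box F (fun i => decide (i ∈ F.filter fun i => x i = true)),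
        mem_iUnion.2 ⟨(F, F.filter fun i => x i = true), rfl⟩, ?_⟩
      refine Subset.trans ?_ hF
      intro y hy i hi
      have h1 : y i = decide (i ∈ F.filter fun i => x i = true) := hy i hi
      show y i = x i
      rw [h1]
      have hi' : i ∈ F := hi
      cases hx : x i <;> simp [hi', hx]
  apply le_antisymm
  · exact csInf_le' hmem
  · refine le_csInf ⟨_, hmem⟩ ?_
    rintro κ ⟨ι', C, rfl, hC, hb⟩
    exact le_of_piBase hι C hC hb

/-- A discrete subset of a Hausdorff space without isolated points is nowhere dense. -/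
theorem interior_closure_eq_empty {Y : Type u} [TopologicalSpace Y] [T1Space Y]
    (hY : ∀ y : Y, ¬ IsOpen ({y} : Set Y)) (S : Set Y) (hS : DiscreteTopology ↥S) :
    interior (closure S) = ∅ := by
  by_contra hne
  obtain ⟨z, hz⟩ := nonempty_iff_ne_empty.2 hne
  have hU : IsOpen (interior (closure S)) := isOpen_interior
  obtain ⟨x, hxU, hxS⟩ := mem_closure_iff.1 (interior_subset hz) _ hU hz
  obtain ⟨V, hV, hVS⟩ := discreteTopology_subtype_iff'.1 hS x hxS
  have hxV : x ∈ V := by
    have : x ∈ V ∩ S := by rw [hVS]; rfl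
    exact this.1
  have hW : IsOpen (interior (closure S) ∩ V) := hU.inter hV
  have hW2 : IsOpen ((interior (closure S) ∩ V) \ {x}) := hW.sdiff isClosed_singleton
  have hne2 : ((interior (closure S) ∩ V) \ {x}).Nonempty := by
    by_contra h0
    rw [not_nonempty_iff_eq_empty] at h0
    apply hY x
    have : interior (closure S) ∩ V = {x} := by
      apply Subset.antisymm
      · intro y hy
        by_contra hyx
        have : y ∈ (interior (closure S) ∩ V) \ {x} := ⟨hy, hyx⟩
        rw [h0] at this
        exact this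
      · rintro _ rfl
        exact ⟨hxU, hxV⟩
    rwa [this] at hW
  obtain ⟨w, hw⟩ := hne2
  obtain ⟨y, hy, hyS⟩ := mem_closure_iff.1 (interior_subset hw.1.1) _ hW2 hw
  have : y ∈ V ∩ S := ⟨hy.1.2, hyS⟩
  rw [hVS] at this
  exact hy.2 this

/-- In a nonempty Hausdorff Baire space without isolated points a dense subset is not a finite union
of discrete sets. -/
theorem aleph0_le_of_dense {Y : Type u} [TopologicalSpace Y] [T1Space Y] [BaireSpace Y] [Nonempty Y]
    (hY : ∀ y : Y, ¬ IsOpen ({y} : Set Y)) {ι : Type u} (A : ι → Set Y)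
    (hA : ∀ i, DiscreteTopology ↥(A i)) (hd : Dense (⋃ i, A i)) : ℵ₀ ≤ #ι := by
  by_contra hlt
  rw [not_le, lt_aleph0_iff_finite] at hlt
  have h1 : ⋃ i, closure (A i) = Set.univ := by
    rw [← closure_iUnion_of_finite, hd.closure_eq]
  obtain ⟨i, hi⟩ := nonempty_interior_of_iUnion_of_closed (fun i => isClosed_closure) h1
  rw [interior_closure_eq_empty hY _ (hA i)] at hi
  exact not_nonempty_empty hi

theorem not_isOpen_singleton {ι : Type u} [Infinite ι] (y : ι → Bool) :
    ¬ IsOpen ({y} : Set (ι → Bool)) := by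
  classical
  intro h
  obtain ⟨F, x, hF⟩ := exists_box_subset h ⟨y, rfl⟩
  obtain ⟨i, hi⟩ := F.exists_notMem
  have h1 : x ∈ box F x := fun j _ => rfl
  have h2 : Function.update x i (!x i) ∈ box F x := by
    intro j hj
    have hji : j ≠ i := by
      rintro rfl
      exact hi hj
    simp [hji]
  have h3 : x = y := hF h1
  have h4 : Function.update x i (!x i) = y := hF h2
  have h5 := congrFun (h4.trans h3.symm) i
  simp at h5

/-- `dδ` of the Cantor cube of `Space.lean`. -/
theorem dDelta_cube (T : Type u) [Infinite T] : dDelta (I T → Bool) = ℵ₀ := by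
  have hinf : Infinite (I T) := Infinite.of_injective (Sum.inl : T → I T) Sum.inl_injective
  apply le_antisymm
  · apply ciSup_le'
    rintro ⟨D, hD⟩
    obtain ⟨A, hA, hdense⟩ := exists_discrete hD
    apply csInf_le'
    refine ⟨ULift.{u} ℕ, fun n => Subtype.val ⁻¹' A n.down, by simp, fun n => ?_, ?_⟩
    · have := (hA n.down).2
      refine DiscreteTopology.of_continuous_injective
        (f := fun z : ↥(Subtype.val ⁻¹' A n.down : Set ↥D) => (⟨z.1.1, z.2⟩ : ↥(A n.down)))
        ?_ ?_
      · exact (continuous_subtype_val.comp continuous_subtype_val).subtype_mk _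
      · intro z w h
        have h1 := congrArg Subtype.val h
        exact Subtype.ext (Subtype.ext h1)
    · rw [Subtype.dense_iff]
      intro z _
      have h1 : (⋃ n, A n) ⊆
          (Subtype.val '' ⋃ n : ULift.{u} ℕ, (Subtype.val ⁻¹' A n.down : Set ↥D)) := by
        intro y hy
        obtain ⟨n, hn⟩ := mem_iUnion.1 hy
        exact ⟨⟨y, (hA n).1 hn⟩, mem_iUnion.2 ⟨⟨n⟩, hn⟩, rfl⟩
      exact closure_mono h1 (hdense z)
  · refine le_trans ?_ (le_ciSup Cardinal.bddAbove_of_small ⟨univ, dense_univ⟩)
    refine le_csInf ?_ ?_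
    · refine ⟨_, ↥(univ : Set (I T → Bool)), fun x => {x}, rfl, fun x => inferInstance, ?_⟩
      rw [iUnion_of_singleton]
      exact dense_univ
    · rintro κ ⟨ι', A, rfl, hA, hd⟩
      refine aleph0_le_of_dense (Y := I T → Bool) not_isOpen_singleton
        (fun i => Subtype.val '' A i) (fun i => ?_) ?_
      · have := hA i
        refine DiscreteTopology.of_continuous_injective
          (f := fun z : ↥(Subtype.val '' A i) => (⟨⟨z.1, mem_univ _⟩, by
            obtain ⟨w, hw, hwz⟩ := z.2
            have : w = ⟨z.1, mem_univ _⟩ := Subtype.ext hwz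
            rwa [← this]⟩ : ↥(A i))) ?_ ?_
        · exact (continuous_subtype_val.subtype_mk _).subtype_mk _
        · intro z w h
          exact Subtype.ext (congrArg (fun q : ↥(A i) => q.1.1) h)
      · rw [Subtype.dense_iff] at hd
        rw [← image_iUnion]
        intro z
        exact hd (mem_univ z)

end Pool.Agent.Lib.H87I
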